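import Mathlib
import Pool.Agent.H55.Shuffle

namespace Pool.Agent.Results.MP_aa870c_nt.InfinitelyMany

/-- Infinitely many triples `(a, b, c)` violate the shuffle conjecture Q1. -/
theorem result :
    Set.Infinite {t : ℕ × ℕ × ℕ | ∃ a b c p q r : ℕ, t = (a, b, c) ∧
      1 < a ∧ 1 < b ∧ 1 < c ∧ Nat.gcd a (Nat.gcd b c) = 1 ∧
      1 < p ∧ 1 < q ∧ 1 < r ∧ a ^ p + b ^ q = c ^ r ∧
      a < b ∧ (a, b, c) ≠ (2, 7, 3) ∧
      (∀ k : ℕ, 0 < k → (a, b, c) ≠ (2, 2 ^ k - 1, 2 ^ k + 1)) ∧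
      ¬ (q = 2 ∧ r = 2 ∧ c = b + 1) ∧
      ∃ X Y Z : ℕ, 0 < X ∧ 0 < Y ∧ 0 < Z ∧ c ^ X + b ^ Y = a ^ Z} := by
  apply Set.Infinite.of_image (fun t : ℕ × ℕ × ℕ => t.2.2)
  apply Set.infinite_of_forall_exists_gt
  intro N
  obtain ⟨a, b, c, hN, ha, hc, hab, hcb, h1, h2⟩ := Pool.Agent.H55.Shuffle.exists_big N
  refine ⟨c, ⟨(a, b, c), ⟨a, b, c, 2, 2, 4, rfl, by omega, by omega, by omega, ?_, by omega,
    by omega, by omega, ?_, hab, ?_, ?_, by omega, 2, 1, 2, by omega, by omega, by omega, ?_⟩,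
    rfl⟩, hN⟩
  · have hbc : Nat.Coprime b c := by
      have : Nat.Coprime b (c ^ 2) := by rw [← h2]; simp
      exact Nat.Coprime.coprime_dvd_right (Dvd.intro_left c (by ring)) this
    rw [hbc.gcd_eq_one]; simp
  · have : c ^ 4 = (b + 1) ^ 2 := by rw [h2]; ring
    nlinarith
  · intro h; simp only [Prod.mk.injEq] at h; omega
  · intro k _ h; simp only [Prod.mk.injEq] at h; omega
  · rw [pow_one]; omega

end Pool.Agent.Results.MP_aa870c_nt.InfinitelyMany
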