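import Mathlib

namespace Pool.Agent.Results.MP_aa870c_nt.OddExponent

/-- A counterexample to Q1 with odd exponent `r`: `2^2 + 11^2 = 5^3` and `5 + 11 = 2^4`. -/
theorem result :
    ∃ a b c p q r : ℕ,
      1 < a ∧ 1 < b ∧ 1 < c ∧ Nat.gcd a (Nat.gcd b c) = 1 ∧
      1 < p ∧ 1 < q ∧ 1 < r ∧ a ^ p + b ^ q = c ^ r ∧
      a < b ∧ (a, b, c) ≠ (2, 7, 3) ∧
      (∀ k : ℕ, 0 < k → (a, b, c) ≠ (2, 2 ^ k - 1, 2 ^ k + 1)) ∧
      ¬ (q = 2 ∧ r = 2 ∧ c = b + 1) ∧ Odd r ∧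
      ∃ X Y Z : ℕ, 0 < X ∧ 0 < Y ∧ 0 < Z ∧ c ^ X + b ^ Y = a ^ Z := by
  refine ⟨2, 11, 5, 2, 2, 3, by norm_num, by norm_num, by norm_num, by norm_num, by norm_num,
    by norm_num, by norm_num, by norm_num, by norm_num, by simp, ?_, by norm_num, by decide,
    1, 1, 4, by norm_num, by norm_num, by norm_num, by norm_num⟩
  intro k _ h
  simp only [Prod.mk.injEq] at h
  omega

end Pool.Agent.Results.MP_aa870c_nt.OddExponent
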